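import Pool.Agent.TH158.FM.Stm2
import Pool.Agent.Helper240.ZU.A1

set_option autoImplicit false

/-!
Sawtooth expansion of the zeta function (Euler-Maclaurin with the Fourier series of the second
Bernoulli function).
-/

namespace Pool.Agent.TH572.Saw

open Complex MeasureTheory Set Filter Topology

noncomputable section

/-- Coefficients of the Fourier series. -/
def aa (m : ℕ) : ℝ := 1 / (2 * Real.pi ^ 2) * (1 / (m : ℝ) ^ 2)

theorem aa_nonneg (m : ℕ) : 0 ≤ aa m := by unfold aa; positivity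

theorem aa_summable : Summable aa := (Real.summable_one_div_nat_pow.2 one_lt_two).mul_left _

theorem aa_cos (m : ℕ) (u : ℝ) : ‖aa m * Real.cos (2 * Real.pi * m * u)‖ ≤ aa m := by
  rw [Real.norm_eq_abs, abs_mul, abs_of_nonneg (aa_nonneg m)]
  exact mul_le_of_le_one_right (aa_nonneg m) (Real.abs_cos_le_one _)

/-- Half of the second periodic Bernoulli function. -/
def bb (u : ℝ) : ℝ := ∑' m : ℕ, aa m * Real.cos (2 * Real.pi * m * u)

theorem bb_summable (u : ℝ) : Summable (fun m : ℕ => aa m * Real.cos (2 * Real.pi * m * u)) :=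
  Summable.of_norm_bounded aa_summable (fun m => aa_cos m u)

theorem bb_cont : Continuous bb :=
  continuous_tsum (fun m => by fun_prop) aa_summable (fun m u => aa_cos m u)

theorem cos_fract (m : ℕ) (u : ℝ) :
    Real.cos (2 * Real.pi * m * Int.fract u) = Real.cos (2 * Real.pi * m * u) := by
  have h : 2 * Real.pi * m * Int.fract u = 2 * Real.pi * m * u - ((m * ⌊u⌋ : ℤ) : ℝ) * (2 * Real.pi) := by
    rw [← Int.self_sub_floor]
    push_cast
    ring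
  rw [h, Real.cos_sub_int_mul_two_pi]

theorem bern_two (x : ℝ) :
    (Polynomial.map (algebraMap ℚ ℝ) (Polynomial.bernoulli 2)).eval x = x ^ 2 - x + 1 / 6 := by
  simp only [Polynomial.bernoulli, Finset.sum_range_succ, Finset.sum_range_zero,
    Polynomial.map_add, Polynomial.map_monomial, Polynomial.eval_add, Polynomial.eval_monomial,
    _root_.bernoulli_zero, _root_.bernoulli_one, _root_.bernoulli_two]
  norm_num
  ring

theorem bb_eq (u : ℝ) : bb u = (Int.fract u) ^ 2 / 2 - Int.fract u / 2 + 1 / 12 := by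
  have h := hasSum_one_div_nat_pow_mul_cos (k := 1) one_ne_zero (x := Int.fract u)
    ⟨Int.fract_nonneg u, (Int.fract_lt_one u).le⟩
  have h2 := h.mul_left (1 / (2 * Real.pi ^ 2))
  have h3 : (fun m : ℕ => 1 / (2 * Real.pi ^ 2) *
      (1 / (m : ℝ) ^ (2 * 1) * Real.cos (2 * Real.pi * m * Int.fract u))) =
      fun m : ℕ => aa m * Real.cos (2 * Real.pi * m * u) := by
    funext m
    rw [cos_fract]
    unfold aa
    ring
  rw [h3] at h2
  unfold bb
  rw [h2.tsum_eq, mul_one, bern_two]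
  have hp := Real.pi_ne_zero
  norm_num
  field_simp
  ring

theorem bb_deriv (u : ℝ) (hu : u ∉ range ((↑) : ℤ → ℝ)) :
    HasDerivAt bb (Int.fract u - 1 / 2) u := by
  have h1 : (⌊u⌋ : ℝ) < u := lt_of_le_of_ne (Int.floor_le u) (fun h => hu ⟨_, h⟩)
  have h2 : u < ⌊u⌋ + 1 := Int.lt_floor_add_one u
  have h3 : HasDerivAt (fun v : ℝ => (v - ⌊u⌋) ^ 2 / 2 - (v - ⌊u⌋) / 2 + 1 / 12)
      (Int.fract u - 1 / 2) u := by
    have h4 : HasDerivAt (fun v : ℝ => v - (⌊u⌋ : ℝ)) 1 u := (hasDerivAt_id u).sub_const _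
    have h5 := (((h4.pow 2).div_const 2).sub (h4.div_const 2)).add_const (1 / 12 : ℝ)
    convert! h5 using 1
    rw [← Int.self_sub_floor]
    simp
  refine h3.congr_of_eventuallyEq ?_
  filter_upwards [Ioo_mem_nhds h1 h2] with v hv
  have h6 : ⌊v⌋ = ⌊u⌋ := by
    rw [Int.floor_eq_iff]
    exact ⟨hv.1.le, hv.2⟩
  rw [bb_eq, ← Int.self_sub_floor, h6]

/-- The remainder. -/
def rr (M : ℕ) (u : ℝ) : ℝ :=
  bb u - ∑ m ∈ Finset.Icc 1 M, aa m * Real.cos (2 * Real.pi * m * u)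

/-- The derivative of the remainder. -/
def RR (M : ℕ) (u : ℝ) : ℝ :=
  (Int.fract u - 1 / 2) + ∑ m ∈ Finset.Icc 1 M, Real.sin (2 * Real.pi * m * u) / (Real.pi * m)

/-- The bound of the remainder. -/
def ep (M : ℕ) : ℝ := ∑' k : ℕ, aa (k + (M + 1))

theorem ep_nonneg (M : ℕ) : 0 ≤ ep M := tsum_nonneg fun _ => aa_nonneg _

theorem ep_tendsto : Tendsto ep atTop (𝓝 0) :=
  (tendsto_sum_nat_add aa).comp (tendsto_add_atTop_nat 1)

theorem rr_cont (M : ℕ) : Continuous (rr M) := by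
  unfold rr
  refine bb_cont.sub (continuous_finsetSum _ fun m _ => by fun_prop)

theorem rr_eq (M : ℕ) (u : ℝ) :
    rr M u = ∑' k : ℕ, aa (k + (M + 1)) * Real.cos (2 * Real.pi * ((k + (M + 1) : ℕ) : ℝ) * u) := by
  have h1 := (bb_summable u).sum_add_tsum_nat_add (M + 1)
  have h2 : ∑ m ∈ Finset.range (M + 1), aa m * Real.cos (2 * Real.pi * m * u) =
      ∑ m ∈ Finset.Icc 1 M, aa m * Real.cos (2 * Real.pi * m * u) := by
    rw [Finset.range_eq_Ico, Finset.sum_eq_sum_Ico_succ_bot (by omega)]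
    have : aa 0 = 0 := by unfold aa; simp
    rw [this, zero_mul, zero_add]
    rfl
  unfold rr
  rw [← h2]
  unfold bb
  rw [← h1]
  ring

theorem rr_bound (M : ℕ) (u : ℝ) : ‖rr M u‖ ≤ ep M := by
  rw [rr_eq]
  refine tsum_of_norm_bounded (g := fun k : ℕ => aa (k + (M + 1))) ?_ fun k => aa_cos _ u
  exact ((summable_nat_add_iff (M + 1)).2 aa_summable).hasSum

theorem rr_deriv (M : ℕ) (u : ℝ) (hu : u ∉ range ((↑) : ℤ → ℝ)) :
    HasDerivAt (rr M) (RR M u) u := by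
  have h1 : HasDerivAt (fun u => ∑ m ∈ Finset.Icc 1 M, aa m * Real.cos (2 * Real.pi * m * u))
      (∑ m ∈ Finset.Icc 1 M, -(Real.sin (2 * Real.pi * m * u) / (Real.pi * m))) u := by
    apply HasDerivAt.fun_sum
    intro m hm
    have hm1 : (m : ℝ) ≠ 0 := by
      have := (Finset.mem_Icc.1 hm).1
      positivity
    have h2 : HasDerivAt (fun u : ℝ => 2 * Real.pi * m * u) (2 * Real.pi * m) u := by
      simpa using (hasDerivAt_id u).const_mul (2 * Real.pi * m)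
    have h3 := (h2.cos).const_mul (aa m)
    convert! h3 using 1
    unfold aa
    have hp := Real.pi_ne_zero
    field_simp
  have h4 := (bb_deriv u hu).sub h1
  unfold rr RR
  convert! h4 using 1
  rw [Finset.sum_neg_distrib, sub_neg_eq_add]

theorem RR_meas (M : ℕ) : Measurable (RR M) := by
  unfold RR
  refine (measurable_fract.sub_const _).add ?_
  refine Finset.measurable_sum _ fun m _ => ?_
  fun_prop

theorem RR_bd (M : ℕ) : ∃ C, ∀ u, ‖RR M u‖ ≤ C := by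
  refine ⟨1 + ∑ m ∈ Finset.Icc 1 M, ‖1 / (Real.pi * m)‖, fun u => ?_⟩
  unfold RR
  refine (norm_add_le _ _).trans (add_le_add ?_ ?_)
  · rw [Real.norm_eq_abs, abs_le]
    have := Int.fract_nonneg u
    have := Int.fract_lt_one u
    constructor <;> linarith
  · refine (norm_sum_le _ _).trans (Finset.sum_le_sum fun m _ => ?_)
    rw [norm_div, norm_div, norm_one]
    gcongr
    exact Real.abs_sin_le_one _

theorem RRg_int (M : ℕ) {c : ℝ} (hc : 0 < c) {w : ℂ} (hw : w.re < -1) :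
    IntegrableOn (fun u : ℝ => ((RR M u : ℝ) : ℂ) * (u : ℂ) ^ w) (Ioi c) := by
  obtain ⟨C, hC⟩ := RR_bd M
  refine Integrable.bdd_mul (c := C) (integrableOn_Ioi_cpow_of_lt hw hc) ?_ ?_
  · exact (Complex.measurable_ofReal.comp (RR_meas M)).aestronglyMeasurable
  · refine Filter.Eventually.of_forall fun u => ?_
    rw [Complex.norm_real]
    exact hC u

theorem gd_int {c : ℝ} (hc : 0 < c) {w : ℂ} (hw : w.re < -1) :
    IntegrableOn (fun u : ℝ => ‖w * (u : ℂ) ^ (w - 1)‖) (Ioi c) := by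
  have h : (w - 1).re < -1 := by simp only [sub_re, one_re]; linarith
  exact ((integrableOn_Ioi_cpow_of_lt h hc).const_mul w).norm

theorem part (M : ℕ) {c : ℝ} (hc : 0 < c) {w : ℂ} (hw : w.re < -1) {X : ℝ} (hX : c ≤ X) :
    ‖∫ u in c..X, ((RR M u : ℝ) : ℂ) * (u : ℂ) ^ w‖ ≤
      ep M * ‖(X : ℂ) ^ w‖ + ep M * (‖(c : ℂ) ^ w‖ + ∫ u in Ioi c, ‖w * (u : ℂ) ^ (w - 1)‖) := by
  have hw0 : w ≠ 0 := by rintro rfl; norm_num at hw
  have hw1 : (w - 1).re < -1 := by simp only [sub_re, one_re]; linarith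
  have hpos : ∀ u ∈ uIcc c X, u ≠ 0 := by
    intro u hu
    rw [uIcc_of_le hX] at hu
    exact (hc.trans_le hu.1).ne'
  have i1 : IntervalIntegrable (fun u : ℝ => ((RR M u : ℝ) : ℂ) * (u : ℂ) ^ w) volume c X := by
    rw [intervalIntegrable_iff_integrableOn_Ioc_of_le hX]
    exact (RRg_int M hc hw).mono_set Ioc_subset_Ioi_self
  have hcr : Continuous fun u : ℝ => ((rr M u : ℝ) : ℂ) :=
    Complex.continuous_ofReal.comp (rr_cont M)
  have hcg : ∀ z : ℂ, ContinuousOn (fun u : ℝ => (u : ℂ) ^ z) (uIcc c X) := by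
    intro z u hu
    exact (Complex.continuousAt_ofReal_cpow_const _ _ (Or.inr (hpos u hu))).continuousWithinAt
  have i2 : IntervalIntegrable (fun u : ℝ => ((rr M u : ℝ) : ℂ) * (w * (u : ℂ) ^ (w - 1)))
      volume c X :=
    (hcr.continuousOn.mul (continuousOn_const.mul (hcg _))).intervalIntegrable
  have h1 : (∫ u in c..X, (((RR M u : ℝ) : ℂ) * (u : ℂ) ^ w +
      ((rr M u : ℝ) : ℂ) * (w * (u : ℂ) ^ (w - 1)))) =
      ((rr M X : ℝ) : ℂ) * (X : ℂ) ^ w - ((rr M c : ℝ) : ℂ) * (c : ℂ) ^ w := by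
    refine integral_eq_of_hasDerivAt_off_countable
      (fun u : ℝ => ((rr M u : ℝ) : ℂ) * (u : ℂ) ^ w) _ (countable_range ((↑) : ℤ → ℝ))
      (hcr.continuousOn.mul (hcg _)) ?_ (i1.add i2)
    rintro u ⟨hu, hu'⟩
    have hu0 : u ≠ 0 := hpos u (Ioo_subset_Icc_self hu)
    exact ((rr_deriv M u hu').ofReal_comp).mul (hasDerivAt_ofReal_cpow_const hu0 hw0)
  rw [intervalIntegral.integral_add i1 i2] at h1
  have h2 : (∫ u in c..X, ((RR M u : ℝ) : ℂ) * (u : ℂ) ^ w) =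
      ((rr M X : ℝ) : ℂ) * (X : ℂ) ^ w - ((rr M c : ℝ) : ℂ) * (c : ℂ) ^ w -
      ∫ u in c..X, ((rr M u : ℝ) : ℂ) * (w * (u : ℂ) ^ (w - 1)) := by
    rw [← h1]; ring
  have h3 : ‖∫ u in c..X, ((rr M u : ℝ) : ℂ) * (w * (u : ℂ) ^ (w - 1))‖ ≤
      ep M * ∫ u in Ioi c, ‖w * (u : ℂ) ^ (w - 1)‖ := by
    rw [intervalIntegral.integral_of_le hX, ← integral_const_mul]
    have hi : IntegrableOn (fun u : ℝ => ep M * ‖w * (u : ℂ) ^ (w - 1)‖) (Ioi c) :=
      (gd_int hc hw).const_mul (ep M)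
    refine (norm_integral_le_of_norm_le (hi.mono_set Ioc_subset_Ioi_self) ?_).trans ?_
    · refine Filter.Eventually.of_forall fun u => ?_
      rw [norm_mul, Complex.norm_real]
      exact mul_le_mul_of_nonneg_right (rr_bound M u) (norm_nonneg _)
    · refine setIntegral_mono_set hi ?_ Ioc_subset_Ioi_self.eventuallyLE
      refine Filter.Eventually.of_forall fun u => ?_
      exact mul_nonneg (ep_nonneg M) (norm_nonneg _)
  rw [h2]
  refine (norm_sub_le _ _).trans ?_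
  have h4 := norm_sub_le (((rr M X : ℝ) : ℂ) * (X : ℂ) ^ w) (((rr M c : ℝ) : ℂ) * (c : ℂ) ^ w)
  have h5 : ∀ x : ℝ, ‖((rr M x : ℝ) : ℂ) * (x : ℂ) ^ w‖ ≤ ep M * ‖(x : ℂ) ^ w‖ := by
    intro x
    rw [norm_mul, Complex.norm_real]
    exact mul_le_mul_of_nonneg_right (rr_bound M x) (norm_nonneg _)
  have h6 := h5 X
  have h7 := h5 c
  rw [mul_add]
  linarith

theorem tail_bound (M : ℕ) {c : ℝ} (hc : 0 < c) {w : ℂ} (hw : w.re < -1) :
    ‖∫ u in Ioi c, ((RR M u : ℝ) : ℂ) * (u : ℂ) ^ w‖ ≤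
      ep M * (‖(c : ℂ) ^ w‖ + ∫ u in Ioi c, ‖w * (u : ℂ) ^ (w - 1)‖) := by
  have h1 := (intervalIntegral_tendsto_integral_Ioi c (RRg_int M hc hw) tendsto_id).norm
  have h2 : Tendsto (fun X : ℝ => ep M * ‖(X : ℂ) ^ w‖ +
      ep M * (‖(c : ℂ) ^ w‖ + ∫ u in Ioi c, ‖w * (u : ℂ) ^ (w - 1)‖)) atTop
      (𝓝 (ep M * (‖(c : ℂ) ^ w‖ + ∫ u in Ioi c, ‖w * (u : ℂ) ^ (w - 1)‖))) := by
    have h3 : Tendsto (fun X : ℝ => ‖(X : ℂ) ^ w‖) atTop (𝓝 0) := by
      have h4 : Tendsto (fun X : ℝ => X ^ (-(-w.re))) atTop (𝓝 0) :=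
        tendsto_rpow_neg_atTop (by linarith)
      refine h4.congr' ?_
      filter_upwards [eventually_gt_atTop 0] with X hX
      rw [Complex.norm_cpow_eq_rpow_re_of_pos hX, neg_neg]
    have h5 := (h3.const_mul (ep M)).add_const
      (ep M * (‖(c : ℂ) ^ w‖ + ∫ u in Ioi c, ‖w * (u : ℂ) ^ (w - 1)‖))
    rwa [mul_zero, zero_add] at h5
  refine le_of_tendsto_of_tendsto h1 h2 ?_
  filter_upwards [eventually_ge_atTop c] with X hX
  exact part M hc hw hX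

theorem tail_tendsto {c : ℝ} (hc : 0 < c) {w : ℂ} (hw : w.re < -1) :
    Tendsto (fun M : ℕ => ∫ u in Ioi c, ((RR M u : ℝ) : ℂ) * (u : ℂ) ^ w) atTop (𝓝 0) := by
  refine squeeze_zero_norm (fun M => tail_bound M hc hw) ?_
  have h := ep_tendsto.mul_const (‖(c : ℂ) ^ w‖ + ∫ u in Ioi c, ‖w * (u : ℂ) ^ (w - 1)‖)
  rwa [zero_mul] at h

theorem half_int {c : ℝ} (hc : 0 < c) {s : ℂ} (hs : 0 < s.re) :
    IntegrableOn (fun u : ℝ => ((Int.fract u - 1 / 2 : ℝ) : ℂ) * (u : ℂ) ^ (-s - 1)) (Ioi c) := by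
  have h1 := ZU.J_a1.zf_int c hc s hs
  have h2 : IntegrableOn (fun u : ℝ => (u : ℂ) ^ (-s - 1)) (Ioi c) := by
    apply integrableOn_Ioi_cpow_of_lt _ hc
    simp only [sub_re, neg_re, one_re]
    linarith
  have h3 := h1.sub (h2.const_mul (1 / 2 : ℂ))
  refine h3.congr (Filter.Eventually.of_forall fun u => ?_)
  simp only [Pi.sub_apply]
  push_cast
  ring

/-- Euler-Maclaurin formula of order one at a real point. -/
theorem em {s : ℂ} (hs : 0 < s.re) (hs1 : s ≠ 1) {c : ℝ} (hc : 0 < c) :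
    -(s * ∫ u in Ioi c, ((Int.fract u - 1 / 2 : ℝ) : ℂ) * (u : ℂ) ^ (-s - 1)) =
      riemannZeta s - ∑ n ∈ Finset.Icc 1 ⌊c⌋₊, (n : ℂ) ^ (-s) +
      (c : ℂ) ^ (1 - s) / (1 - s) - ((Int.fract c - 1 / 2 : ℝ) : ℂ) * (c : ℂ) ^ (-s) := by
  obtain ⟨K, hK⟩ : ∃ K : ℕ, K = ⌊c⌋₊ := ⟨_, rfl⟩
  have hKc : (K : ℝ) ≤ c := by rw [hK]; exact Nat.floor_le hc.le
  have hcK : c < (K : ℝ) + 1 := by rw [hK]; exact Nat.lt_floor_add_one c
  have hle : c ≤ ((K + 1 : ℕ) : ℝ) := by push_cast; exact hcK.le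
  have hN0 : (0 : ℝ) < ((K + 1 : ℕ) : ℝ) := hc.trans_le hle
  have hs0 : s ≠ 0 := by
    intro h
    rw [h] at hs
    simp at hs
  have h1s : 1 - s ≠ 0 := sub_ne_zero.2 hs1.symm
  have hfr : ∀ u : ℝ, (K : ℝ) ≤ u → u < (K : ℝ) + 1 → Int.fract u = u - K := by
    intro u h1 h2
    have hfl : ⌊u⌋ = (K : ℤ) := by
      rw [Int.floor_eq_iff]
      exact ⟨by exact_mod_cast h1, by exact_mod_cast h2⟩
    rw [← Int.self_sub_floor, hfl]
    simp
  have hint := half_int hc hs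
  have hun : Ioi c = Ioc c ((K + 1 : ℕ) : ℝ) ∪ Ioi ((K + 1 : ℕ) : ℝ) :=
    (Ioc_union_Ioi_eq_Ioi hle).symm
  have hsplit : (∫ u in Ioi c, ((Int.fract u - 1 / 2 : ℝ) : ℂ) * (u : ℂ) ^ (-s - 1)) =
      (∫ u in Ioc c ((K + 1 : ℕ) : ℝ), ((Int.fract u - 1 / 2 : ℝ) : ℂ) * (u : ℂ) ^ (-s - 1)) +
      ∫ u in Ioi ((K + 1 : ℕ) : ℝ), ((Int.fract u - 1 / 2 : ℝ) : ℂ) * (u : ℂ) ^ (-s - 1) := by
    conv_lhs => rw [hun]
    exact setIntegral_union (Ioc_disjoint_Ioi le_rfl) measurableSet_Ioi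
      (hint.mono_set Ioc_subset_Ioi_self) (hint.mono_set (Ioi_subset_Ioi hle))
  have hre : (-s - 1).re < -1 := by
    simp only [sub_re, neg_re, one_re]
    linarith
  -- the part beyond the next integer
  have htail : (∫ u in Ioi ((K + 1 : ℕ) : ℝ), ((Int.fract u - 1 / 2 : ℝ) : ℂ) * (u : ℂ) ^ (-s - 1)) =
      (∫ u in Ioi ((K + 1 : ℕ) : ℝ), ((Int.fract u : ℝ) : ℂ) * (u : ℂ) ^ (-s - 1)) -
        1 / 2 * ((((K + 1 : ℕ) : ℝ) : ℂ) ^ (-s) / s) := by
    have h1 := ZU.J_a1.zf_int _ hN0 s hs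
    have h2 : IntegrableOn (fun u : ℝ => (1 / 2 : ℂ) * (u : ℂ) ^ (-s - 1)) (Ioi ((K + 1 : ℕ) : ℝ)) :=
      (integrableOn_Ioi_cpow_of_lt hre hN0).const_mul _
    have h3 : (∫ u in Ioi ((K + 1 : ℕ) : ℝ), (1 / 2 : ℂ) * (u : ℂ) ^ (-s - 1)) =
        1 / 2 * ((((K + 1 : ℕ) : ℝ) : ℂ) ^ (-s) / s) := by
      rw [integral_const_mul, integral_Ioi_cpow_of_lt hre hN0]
      have e6 : -s - 1 + 1 = -s := by ring
      rw [e6, neg_div_neg_eq]
    rw [← h3, ← integral_sub h1 h2]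
    refine setIntegral_congr_fun measurableSet_Ioi fun u _ => ?_
    push_cast
    ring
  have hmid : (∫ u in Ioc c ((K + 1 : ℕ) : ℝ), ((Int.fract u - 1 / 2 : ℝ) : ℂ) * (u : ℂ) ^ (-s - 1)) =
      (((((K + 1 : ℕ) : ℝ) : ℂ) ^ (1 - s) - (c : ℂ) ^ (1 - s)) / (1 - s)) -
        ((K : ℂ) + 1 / 2) * (((((K + 1 : ℕ) : ℝ) : ℂ) ^ (-s) - (c : ℂ) ^ (-s)) / (-s)) := by
    rw [integral_Ioc_eq_integral_Ioo]
    have hcongr : ∫ u in Ioo c ((K + 1 : ℕ) : ℝ),
        ((Int.fract u - 1 / 2 : ℝ) : ℂ) * (u : ℂ) ^ (-s - 1) =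
        ∫ u in Ioo c ((K + 1 : ℕ) : ℝ), ((u : ℂ) ^ (-s) - ((K : ℂ) + 1 / 2) * (u : ℂ) ^ (-s - 1)) := by
      apply setIntegral_congr_fun measurableSet_Ioo
      intro u hu
      have hu0 : (0:ℝ) < u := lt_trans hc hu.1
      have huc : (u : ℂ) ≠ 0 := by exact_mod_cast hu0.ne'
      have h2 := hu.2
      push_cast at h2
      have e2 : (u : ℂ) ^ (-s) = (u : ℂ) * (u : ℂ) ^ (-s - 1) := by
        have : -s = 1 + (-s - 1) := by ring
        conv_lhs => rw [this, Complex.cpow_add _ _ huc, Complex.cpow_one]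
      simp only
      rw [hfr u (hKc.trans hu.1.le) h2, e2]
      push_cast
      ring
    rw [hcongr, ← integral_Ioc_eq_integral_Ioo, ← intervalIntegral.integral_of_le hle]
    have h0 : (0:ℝ) ∉ uIcc c ((K + 1 : ℕ) : ℝ) := by
      rw [uIcc_of_le hle]
      intro h
      linarith [h.1]
    have i1 : IntervalIntegrable (fun u : ℝ => (u : ℂ) ^ (-s)) volume c ((K + 1 : ℕ) : ℝ) :=
      intervalIntegral.intervalIntegrable_cpow (Or.inr h0)
    have i2 : IntervalIntegrable (fun u : ℝ => ((K : ℂ) + 1 / 2) * (u : ℂ) ^ (-s - 1)) volume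
        c ((K + 1 : ℕ) : ℝ) :=
      (intervalIntegral.intervalIntegrable_cpow (Or.inr h0)).const_mul _
    rw [intervalIntegral.integral_sub i1 i2, intervalIntegral.integral_const_mul,
      integral_cpow (Or.inr ⟨by intro h; apply hs1; linear_combination -h, h0⟩),
      integral_cpow (Or.inr ⟨by intro h; apply hs0; linear_combination -h, h0⟩)]
    have e5 : -s + 1 = 1 - s := by ring
    have e6 : -s - 1 + 1 = -s := by ring
    rw [e5, e6]
  have hz := ZU.J_a1.zeta_formula (K + 1) (by omega) s hs hs1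
  have hd : ZU.DN (K + 1) s = ∑ n ∈ Finset.Icc 1 K, (n : ℂ) ^ (-s) +
      (((K + 1 : ℕ) : ℝ) : ℂ) ^ (-s) := by
    unfold ZU.DN
    rw [Finset.sum_Icc_succ_top (by omega)]
    push_cast
    rfl
  have hNc : (((K + 1 : ℕ) : ℝ) : ℂ) ≠ 0 := by exact_mod_cast hN0.ne'
  have hcc : (c : ℂ) ≠ 0 := by exact_mod_cast hc.ne'
  have e1 : (((K + 1 : ℕ) : ℝ) : ℂ) ^ (1 - s) =
      (((K + 1 : ℕ) : ℝ) : ℂ) * (((K + 1 : ℕ) : ℝ) : ℂ) ^ (-s) := by
    rw [sub_eq_add_neg, Complex.cpow_add _ _ hNc, Complex.cpow_one]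
  have e2 : (c : ℂ) ^ (1 - s) = (c : ℂ) * (c : ℂ) ^ (-s) := by
    rw [sub_eq_add_neg, Complex.cpow_add _ _ hcc, Complex.cpow_one]
  have e3 : ((K + 1 : ℕ) : ℂ) ^ (1 - s) = (((K + 1 : ℕ) : ℝ) : ℂ) ^ (1 - s) := by
    congr 1
  rw [hsplit, htail, hmid, ← hK, hfr c hKc hcK, hz, hd, e3, e1, e2]
  generalize (((K + 1 : ℕ) : ℝ) : ℂ) ^ (-s) = A
  generalize (c : ℂ) ^ (-s) = B
  generalize (∫ u in Ioi ((K + 1 : ℕ) : ℝ), ((Int.fract u : ℝ) : ℂ) * (u : ℂ) ^ (-s - 1)) = J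
  have hs1' : s - 1 ≠ 0 := sub_ne_zero.2 hs1
  have e7 : s - 1 = -(1 - s) := by ring
  rw [e7]
  push_cast
  field_simp
  ring

open Pool.Agent.TH158.FM

theorem pt_re (t : ℝ) : (pt (1 / 2) t).re = 1 / 2 := by
  simp [pt]

/-- The sine integral. -/
def Sn (m : ℕ) (c : ℝ) (s : ℂ) : ℂ :=
  ∫ u in Ioi c, ((Real.sin (2 * Real.pi * m * u) / (Real.pi * m) : ℝ) : ℂ) * (u : ℂ) ^ (-s - 1)

theorem e_int (a : ℝ) {c : ℝ} (hc : 0 < c) {w : ℂ} (hw : w.re < -1) :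
    IntegrableOn (fun u : ℝ => Complex.exp (((2 * Real.pi * a * u : ℝ) : ℂ) * I) * (u : ℂ) ^ w)
      (Ioi c) := by
  refine Integrable.bdd_mul (c := 1) (integrableOn_Ioi_cpow_of_lt hw hc) ?_ ?_
  · exact Continuous.aestronglyMeasurable (by fun_prop)
  · refine Filter.Eventually.of_forall fun u => ?_
    rw [Complex.norm_exp_ofReal_mul_I]

theorem sin_int (m : ℕ) {c : ℝ} (hc : 0 < c) {w : ℂ} (hw : w.re < -1) :
    IntegrableOn (fun u : ℝ => ((Real.sin (2 * Real.pi * m * u) / (Real.pi * m) : ℝ) : ℂ) *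
      (u : ℂ) ^ w) (Ioi c) := by
  refine Integrable.bdd_mul (c := ‖1 / (Real.pi * m)‖) (integrableOn_Ioi_cpow_of_lt hw hc) ?_ ?_
  · exact Continuous.aestronglyMeasurable (by fun_prop)
  · refine Filter.Eventually.of_forall fun u => ?_
    rw [Complex.norm_real, norm_div, norm_div, norm_one]
    gcongr
    exact Real.abs_sin_le_one _

theorem TT_eq (m : ℕ) (hm : 1 ≤ m) {c : ℝ} (hc : 0 < c) (t : ℝ) :
    TT m c t = pt (1 / 2) t * Sn m c (pt (1 / 2) t) := by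
  have hre := pt_re t
  unfold TT KK Sn
  generalize pt (1 / 2) t = s at *
  have hw : (-s - 1).re < -1 := by
    simp only [sub_re, neg_re, one_re, hre]
    norm_num
  rw [← integral_sub (e_int _ hc hw) (e_int _ hc hw), ← integral_const_mul, ← integral_const_mul]
  refine setIntegral_congr_fun measurableSet_Ioi fun u _ => ?_
  have hm0 : (m : ℂ) ≠ 0 := by
    have : m ≠ 0 := by omega
    exact_mod_cast this
  have hp : (Real.pi : ℂ) ≠ 0 := by exact_mod_cast Real.pi_ne_zero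
  have h1 : (((2 * Real.pi * (m : ℝ) * u : ℝ) : ℂ) * I) = (2 * Real.pi * m * u) * I := by
    push_cast; ring
  have h2 : (((2 * Real.pi * (-(m : ℝ)) * u : ℝ) : ℂ) * I) = -((2 * Real.pi * m * u)) * I := by
    push_cast; ring
  rw [h1, h2]
  push_cast
  rw [Complex.sin]
  field_simp
  ring_nf
  rw [I_sq]
  ring

theorem sum_Sn (M : ℕ) {c : ℝ} (hc : 0 < c) {s : ℂ} (hs : 0 < s.re) :
    ∑ m ∈ Finset.Icc 1 M, Sn m c s =
      (∫ u in Ioi c, ((RR M u : ℝ) : ℂ) * (u : ℂ) ^ (-s - 1)) -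
      ∫ u in Ioi c, ((Int.fract u - 1 / 2 : ℝ) : ℂ) * (u : ℂ) ^ (-s - 1) := by
  have hw : (-s - 1).re < -1 := by
    simp only [sub_re, neg_re, one_re]
    linarith
  unfold Sn
  rw [← integral_finsetSum _ fun m _ => sin_int m hc hw,
    ← integral_sub (RRg_int M hc hw) (half_int hc hs)]
  refine setIntegral_congr_fun measurableSet_Ioi fun u _ => ?_
  unfold RR
  push_cast
  rw [← Finset.sum_mul]
  ring

end

end Pool.Agent.TH572.Saw

namespace Pool.Agent.TH158.FM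

open Complex MeasureTheory Set Filter Topology

theorem saw_all : S_SAW := by
  intro t c hc
  have hre := Pool.Agent.TH572.Saw.pt_re t
  have hs : 0 < (pt (1 / 2) t).re := by rw [hre]; norm_num
  have hs1 : pt (1 / 2) t ≠ 1 := by
    intro h
    rw [h] at hre
    norm_num at hre
  have hw : (-(pt (1 / 2) t) - 1).re < -1 := by
    simp only [sub_re, neg_re, one_re]
    linarith
  rw [← Pool.Agent.TH572.Saw.em hs hs1 hc]
  have h1 := (((Pool.Agent.TH572.Saw.tail_tendsto hc hw).sub_const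
    (∫ u in Ioi c, ((Int.fract u - 1 / 2 : ℝ) : ℂ) * (u : ℂ) ^ (-(pt (1 / 2) t) - 1))).const_mul
      (pt (1 / 2) t))
  rw [zero_sub, mul_neg] at h1
  refine h1.congr fun M => ?_
  rw [← Pool.Agent.TH572.Saw.sum_Sn M hc hs, Finset.mul_sum]
  refine Finset.sum_congr rfl fun m hm => ?_
  rw [Pool.Agent.TH572.Saw.TT_eq m (Finset.mem_Icc.1 hm).1 hc]

end Pool.Agent.TH158.FM
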